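import Pool.Agent.H20.ER3.Lib

/-!
# MP_816b90_co, Operation C, row D6

The prism in `R` except for an interval of at least three vertices of a rung.
-/

set_option autoImplicit false
set_option linter.unusedVariables false
set_option linter.unusedSectionVars false

namespace Pool.Agent.H82.ER3

open Pool.Agent.H48.ER Pool.Agent.H52.ER2 Pool.Agent.H66.ER2 Pool.Agent.H20.ER3

/-- exchange of the two triangles -/
theorem pi_flip {W : Type} {M : SimpleGraph W} {n : Fin 3 → ℕ} {g : Fin 3 → ℕ → W}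
    (h : PI M n g) : PI M n (fun i k => g i (n i - k)) := by
  refine ⟨h.pos, ?_, ?_⟩
  · intro i j k l hk hl e
    obtain ⟨e1, e2⟩ := h.inj i j _ _ (Nat.sub_le _ _) (Nat.sub_le _ _) e
    subst e1
    exact ⟨rfl, by omega⟩
  · intro i j k l hk hl
    show M.Adj (g i (n i - k)) (g j (n j - l)) ↔ _
    rw [h.adj i j _ _ (Nat.sub_le _ _) (Nat.sub_le _ _)]
    by_cases hij : i = j
    · subst hij
      simp only [true_and, ne_eq, not_true_eq_false, false_and, or_false]
      omega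
    · simp only [hij, false_and, false_or, ne_eq, not_false_eq_true, true_and]
      omega

variable {V : Type} {G : SimpleGraph V} {R S : Set V} {p q : V}

theorem ctr_sub {a b a' b' : V} (hab : a ≠ b) (ha : a ≠ q) (hb : b ≠ q)
    (h1 : a' = a ∨ (a = p ∧ a' = q)) (h2 : b' = b ∨ (b = p ∧ b' = q)) (h : G.Adj a' b') :
    (ctr G p q).Adj a b := by
  refine ⟨hab, ha, hb, ?_⟩
  rcases h1 with e1 | ⟨e1, e1'⟩ <;> rcases h2 with e2 | ⟨e2, e2'⟩
  · rw [e1, e2] at h; exact Or.inl h
  · rw [e1, e2'] at h; exact Or.inr (Or.inr ⟨e2, h⟩)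
  · rw [e1', e2] at h; exact Or.inr (Or.inl ⟨e1, h⟩)
  · exact absurd (e1.trans e2.symm) hab

/-- choice of one of the two old vertices which has the same neighbours in `R` on the prism -/
theorem pick (hDE : U_DE) (hE : EvP G p q) (hpR : p ∉ R) (hqR : q ∉ R) {n : Fin 3 → ℕ}
    {g : Fin 3 → ℕ → V ⊕ Set V} (h : PI (MG (ctr G p q) R) n g) {k : ℕ} (hk : k < n 0) {c : V}
    (hc : g 0 k = Sum.inl c)
    (hR : ∀ i x, x ≤ n i → (MG (ctr G p q) R).Adj (g 0 k) (g i x) → ¬ (i = 0 ∧ x = k + 1) →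
      InR R (g i x)) :
    ∃ c' : V, (c' = c ∨ (c = p ∧ c' = q)) ∧ ∀ i x r, x ≤ n i →
      (MG (ctr G p q) R).Adj (g 0 k) (g i x) → ¬ (i = 0 ∧ x = k + 1) → g i x = Sum.inl r →
      G.Adj c' r := by
  by_cases hcp : c = p
  · subst hcp
    by_cases hk0 : k = 0
    · subst hk0
      have a1 : (MG (ctr G c q) R).Adj (g 0 0) (g 1 0) :=
        (h.adj 0 1 0 0 (Nat.zero_le _) (Nat.zero_le _)).2 (Or.inr ⟨by decide, Or.inl ⟨rfl, rfl⟩⟩)
      have a2 : (MG (ctr G c q) R).Adj (g 0 0) (g 2 0) :=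
        (h.adj 0 2 0 0 (Nat.zero_le _) (Nat.zero_le _)).2 (Or.inr ⟨by decide, Or.inl ⟨rfl, rfl⟩⟩)
      have a3 : (MG (ctr G c q) R).Adj (g 1 0) (g 2 0) :=
        (h.adj 1 2 0 0 (Nat.zero_le _) (Nat.zero_le _)).2 (Or.inr ⟨by decide, Or.inl ⟨rfl, rfl⟩⟩)
      obtain ⟨r1, hr1, e1⟩ := hR 1 0 (Nat.zero_le _) a1 (fun e => absurd e.1 (by decide))
      obtain ⟨r2, hr2, e2⟩ := hR 2 0 (Nat.zero_le _) a2 (fun e => absurd e.1 (by decide))
      rw [e1, e2] at a3
      rw [hc, e1] at a1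
      rw [hc, e2] at a2
      have b1 : (ctr G c q).Adj c r1 := a1
      have b2 : (ctr G c q).Adj c r2 := a2
      have b3 : G.Adj r1 r2 := by
        rcases (show (ctr G c q).Adj r1 r2 from a3).2.2.2 with e | ⟨e, _⟩ | ⟨e, _⟩
        · exact e
        · exact absurd (e ▸ hr1) hpR
        · exact absurd (e ▸ hr2) hpR
      obtain ⟨z, hz, z1, z2⟩ := hDE V G c q r1 r2 hE b1 b2 b3
      refine ⟨z, ?_, ?_⟩
      · rcases hz with e | e
        · exact Or.inl e
        · exact Or.inr ⟨rfl, e⟩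
      · intro i x r hx ha hne er
        rcases (h.adj 0 i 0 x (Nat.zero_le _) hx).1 ha with ⟨e, e' | e'⟩ | ⟨e, ⟨_, e'⟩ | ⟨e', _⟩⟩
        · exact absurd ⟨e.symm, by omega⟩ hne
        · omega
        · subst e'
          have : i = 1 ∨ i = 2 := by
            fin_cases i
            · exact absurd rfl e
            · exact Or.inl rfl
            · exact Or.inr rfl
          rcases this with rfl | rfl
          · rw [e1] at er; rw [← Sum.inl.inj er]; exact z1
          · rw [e2] at er; rw [← Sum.inl.inj er]; exact z2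
        · omega
    · have a1 : (MG (ctr G c q) R).Adj (g 0 k) (g 0 (k - 1)) :=
        (h.adj 0 0 k (k - 1) hk.le (by omega)).2 (Or.inl ⟨rfl, Or.inr (by omega)⟩)
      obtain ⟨r1, hr1, e1⟩ := hR 0 (k - 1) (by omega) a1 (fun e => by have := e.2; omega)
      rw [hc, e1] at a1
      have b1 : (ctr G c q).Adj c r1 := a1
      have key : ∃ z, (z = c ∨ z = q) ∧ G.Adj z r1 := by
        rcases b1.2.2.2 with e | ⟨_, e⟩ | ⟨e, _⟩
        · exact ⟨c, Or.inl rfl, e⟩
        · exact ⟨q, Or.inr rfl, e⟩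
        · exact absurd (e ▸ hr1) hpR
      obtain ⟨z, hz, z1⟩ := key
      refine ⟨z, ?_, ?_⟩
      · rcases hz with e | e
        · exact Or.inl e
        · exact Or.inr ⟨rfl, e⟩
      · intro i x r hx ha hne er
        rcases (h.adj 0 i k x hk.le hx).1 ha with ⟨e, e' | e'⟩ | ⟨e, ⟨e', _⟩ | ⟨e', _⟩⟩
        · exact absurd ⟨e.symm, e'.symm⟩ hne
        · subst e
          have : x = k - 1 := by omega
          subst this
          rw [e1] at er; rw [← Sum.inl.inj er]; exact z1
        · exact absurd e' hk0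
        · omega
  · refine ⟨c, Or.inl rfl, ?_⟩
    intro i x r hx ha hne er
    obtain ⟨r', hr', e'⟩ := hR i x hx ha hne
    rw [e'] at er
    have er' := Sum.inl.inj er
    rw [hc, e'] at ha
    rw [← er']
    rcases (show (ctr G p q).Adj c r' from ha).2.2.2 with e | ⟨e, _⟩ | ⟨e, _⟩
    · exact e
    · exact absurd e hcp
    · exact absurd (e ▸ hr') hpR

theorem pf_D6 (hDE : U_DE) (hPW : U_PW) (hGE : U_GE) : U_D6 := by
  intro V G R S p q n g k l hEv hE hSt hPM hp hq hEvH hPI hodd hkl hl hck hdl hR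
  -- parity
  have hpw := hPW _ (MG (ctr G p q) R) n g 0 1 k l hPI (by decide) hkl hl
  have hev := hGE V (ctr G p q) R _ _ _ _ hEvH hpw (by omega) hck hdl (by
    rintro w ((⟨x, hx1, hx2, rfl⟩ | ⟨x, hx1, hx2, rfl⟩) | ⟨x, hx1, hx2, rfl⟩)
    · by_cases e : x = k
      · exact Or.inl (by rw [e])
      · exact Or.inr (Or.inr (hR 0 x (by omega) (fun h => by have := h.2; omega)))
    · exact Or.inr (Or.inr (hR 1 x hx2 (fun h => absurd h.1 (by decide))))
    · by_cases e : x = l
      · exact Or.inr (Or.inl (by rw [e]))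
      · exact Or.inr (Or.inr (hR 0 x (by omega) (fun h => by have := h.2; omega))))
  have hpar : Odd (k + 2 + (n 0 - l)) := by
    have hn1 := hodd 1
    rw [Nat.odd_iff] at *; rw [Nat.even_iff] at hev; omega
  -- the ends of the interval are vertices of the graph
  have hreal : ∀ i x j y, x ≤ n i → y ≤ n j → (MG (ctr G p q) R).Adj (g i x) (g j y) →
      InR R (g j y) → ∃ c, g i x = Sum.inl c ∧ c ≠ q := by
    intro i x j y hx hy ha hj
    obtain ⟨r, hr, e⟩ := hj
    rw [e] at ha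
    obtain ⟨a, ea, ha'⟩ := inR_adj hr ha.symm
    exact ⟨a, ea, ha'.2.2.1⟩
  have hck' : ∃ j y, y ≤ n j ∧ (MG (ctr G p q) R).Adj (g 0 k) (g j y) ∧ InR R (g j y) ∧
      ¬ (j = 0 ∧ k ≤ y ∧ y ≤ l) := by
    by_cases hk0 : k = 0
    · have hne : ¬ ((1 : Fin 3) = 0 ∧ k ≤ 0 ∧ 0 ≤ l) := fun e => absurd e.1 (by decide)
      refine ⟨1, 0, Nat.zero_le _, ?_, hR 1 0 (Nat.zero_le _) hne, hne⟩
      exact (hPI.adj 0 1 k 0 (by omega) (Nat.zero_le _)).2
        (Or.inr ⟨by decide, Or.inl ⟨hk0, rfl⟩⟩)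
    · have hne : ¬ ((0 : Fin 3) = 0 ∧ k ≤ k - 1 ∧ k - 1 ≤ l) := fun e => by have := e.2; omega
      refine ⟨0, k - 1, by omega, ?_, hR 0 (k - 1) (by omega) hne, hne⟩
      exact (hPI.adj 0 0 k (k - 1) (by omega) (by omega)).2 (Or.inl ⟨rfl, Or.inr (by omega)⟩)
  have hdl' : ∃ j y, y ≤ n j ∧ (MG (ctr G p q) R).Adj (g 0 l) (g j y) ∧ InR R (g j y) ∧
      ¬ (j = 0 ∧ k ≤ y ∧ y ≤ l) := by
    by_cases hl0 : l = n 0
    · have hne : ¬ ((1 : Fin 3) = 0 ∧ k ≤ n 1 ∧ n 1 ≤ l) := fun e => absurd e.1 (by decide)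
      refine ⟨1, n 1, le_rfl, ?_, hR 1 (n 1) le_rfl hne, hne⟩
      exact (hPI.adj 0 1 l (n 1) (by omega) le_rfl).2
        (Or.inr ⟨by decide, Or.inr ⟨hl0, rfl⟩⟩)
    · have hne : ¬ ((0 : Fin 3) = 0 ∧ k ≤ l + 1 ∧ l + 1 ≤ l) := fun e => by have := e.2; omega
      refine ⟨0, l + 1, by omega, ?_, hR 0 (l + 1) (by omega) hne, hne⟩
      exact (hPI.adj 0 0 l (l + 1) (by omega) (by omega)).2 (Or.inl ⟨rfl, Or.inl (by omega)⟩)
  obtain ⟨jc, yc, hyc, hac, hRc, hnc⟩ := hck'
  obtain ⟨jd, yd, hyd, had, hRd, hnd⟩ := hdl'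
  obtain ⟨c, ec, hcq⟩ := hreal 0 k jc yc (by omega) hyc hac hRc
  obtain ⟨d, ed, hdq⟩ := hreal 0 l jd yd (by omega) hyd had hRd
  have hcR : c ∉ R := fun h => hck (ec ▸ InR.inl_iff.2 h)
  have hdR : d ∉ R := fun h => hdl (ed ▸ InR.inl_iff.2 h)
  -- the replacements
  obtain ⟨c', hc', hc1⟩ := pick hDE hE hp hq hPI (k := k) (by omega) ec (by
    intro i x hx ha hne
    refine hR i x hx ?_
    rintro ⟨rfl, h1, h2⟩
    rcases (hPI.adj 0 0 k x (by omega) hx).1 ha with ⟨_, e | e⟩ | ⟨e, _⟩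
    · exact hne ⟨rfl, e.symm⟩
    · omega
    · exact e rfl)
  have hl' : n 0 - (n 0 - l) = l := by omega
  obtain ⟨d', hd', hd1⟩ := pick hDE hE hp hq (pi_flip hPI) (k := n 0 - l) (by omega)
    (c := d) (by show g 0 (n 0 - (n 0 - l)) = _; rw [hl']; exact ed) (by
    intro i x hx ha hne
    have ha' : (MG (ctr G p q) R).Adj (g 0 l) (g i (n i - x)) := by
      have : (MG (ctr G p q) R).Adj (g 0 (n 0 - (n 0 - l))) (g i (n i - x)) := ha
      rwa [hl'] at this
    refine hR i (n i - x) (Nat.sub_le _ _) ?_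
    rintro ⟨rfl, h1, h2⟩
    rcases (hPI.adj 0 0 l (n 0 - x) (by omega) (by omega)).1 ha' with ⟨_, e | e⟩ | ⟨e, _⟩
    · omega
    · exact hne ⟨rfl, by omega⟩
    · exact e rfl)
  have hd2 : ∀ i x r, x ≤ n i → (MG (ctr G p q) R).Adj (g 0 l) (g i x) →
      ¬ (i = 0 ∧ k ≤ x ∧ x ≤ l) → g i x = Sum.inl r → G.Adj d' r := by
    intro i x r hx ha hne er
    have e0 : n i - (n i - x) = x := by omega
    refine hd1 i (n i - x) r (Nat.sub_le _ _) ?_ ?_ ?_
    · show (MG (ctr G p q) R).Adj (g 0 (n 0 - (n 0 - l))) (g i (n i - (n i - x)))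
      rw [hl', e0]; exact ha
    · rintro ⟨rfl, e⟩
      exact hne ⟨rfl, by omega, by omega⟩
    · show g i (n i - (n i - x)) = _
      rw [e0]; exact er
  have hc2 : ∀ i x r, x ≤ n i → (MG (ctr G p q) R).Adj (g 0 k) (g i x) →
      ¬ (i = 0 ∧ k ≤ x ∧ x ≤ l) → g i x = Sum.inl r → G.Adj c' r := by
    intro i x r hx ha hne er
    refine hc1 i x r hx ha ?_ er
    rintro ⟨rfl, e⟩
    exact hne ⟨rfl, by omega, by omega⟩
  have hc'R : c' ∉ R := by
    rcases hc' with e | ⟨_, e⟩
    · rw [e]; exact hcR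
    · rw [e]; exact hq
  have hd'R : d' ∉ R := by
    rcases hd' with e | ⟨_, e⟩
    · rw [e]; exact hdR
    · rw [e]; exact hq
  have hc'N : ∃ r ∈ R, G.Adj c' r := by
    obtain ⟨r, hr, e⟩ := hRc
    exact ⟨r, hr, hc2 jc yc r hyc hac hnc e⟩
  have hd'N : ∃ r ∈ R, G.Adj d' r := by
    obtain ⟨r, hr, e⟩ := hRd
    exact ⟨r, hr, hd2 jd yd r hyd had hnd e⟩
  have hc'S : c' ∉ S := by
    intro h
    obtain ⟨r, hr, e⟩ := hc'N
    exact hSt.ne r hr c' h e.symm
  have hd'S : d' ∉ S := by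
    intro h
    obtain ⟨r, hr, e⟩ := hd'N
    exact hSt.ne r hr d' h e.symm
  -- the vertices of R
  have hρ : ∀ i x, ∃ v : V, x ≤ n i → ¬ (i = 0 ∧ k ≤ x ∧ x ≤ l) →
      g i x = Sum.inl v ∧ v ∈ R := by
    intro i x
    by_cases h : x ≤ n i ∧ ¬ (i = 0 ∧ k ≤ x ∧ x ≤ l)
    · obtain ⟨r, hr, e⟩ := hR i x h.1 h.2
      exact ⟨r, fun _ _ => ⟨e, hr⟩⟩
    · exact ⟨p, fun h1 h2 => absurd ⟨h1, h2⟩ h⟩
  choose ρ hρ using hρ
  have hu : ∃ u u' : Fin 3 → ℕ → V, (u 0 k = c ∧ u' 0 k = c' ∧ u 0 l = d ∧ u' 0 l = d') ∧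
      ∀ i x, x ≤ n i → ¬ (i = 0 ∧ k ≤ x ∧ x ≤ l) → u i x = ρ i x ∧ u' i x = ρ i x := by
    refine ⟨fun i x => if i = 0 ∧ x = k then c else if i = 0 ∧ x = l then d else ρ i x,
      fun i x => if i = 0 ∧ x = k then c' else if i = 0 ∧ x = l then d' else ρ i x,
      ⟨?_, ?_, ?_, ?_⟩, ?_⟩
    · simp
    · simp
    · have : ¬ l = k := by omega
      simp [this]
    · have : ¬ l = k := by omega
      simp [this]
    · intro i x hx hne
      have h1 : ¬ (i = 0 ∧ x = k) := fun e => hne ⟨e.1, by omega, by omega⟩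
      have h2 : ¬ (i = 0 ∧ x = l) := fun e => hne ⟨e.1, by omega, by omega⟩
      simp only [if_neg h1, if_neg h2, and_self]
  obtain ⟨u, u', ⟨huk, huk', hul, hul'⟩, huR⟩ := hu
  have hcase : ∀ i x, x ≤ n i → ¬ (i = 0 ∧ k < x ∧ x < l) → (i = 0 ∧ x = k) ∨ (i = 0 ∧ x = l) ∨
      ¬ (i = 0 ∧ k ≤ x ∧ x ≤ l) := by
    intro i x hx hne
    by_cases h0 : i = 0
    · by_cases h1 : x = k
      · exact Or.inl ⟨h0, h1⟩
      · by_cases h2 : x = l
        · exact Or.inr (Or.inl ⟨h0, h2⟩)
        · refine Or.inr (Or.inr ?_)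
          rintro ⟨_, h3, h4⟩
          exact hne ⟨h0, by omega, by omega⟩
    · exact Or.inr (Or.inr fun e => h0 e.1)
  have hg : ∀ i x, x ≤ n i → ¬ (i = 0 ∧ k < x ∧ x < l) → g i x = Sum.inl (u i x) ∧ u i x ≠ q ∧
      (u' i x = u i x ∨ (u i x = p ∧ u' i x = q)) ∧ u' i x ∉ S := by
    intro i x hx hne
    rcases hcase i x hx hne with ⟨rfl, rfl⟩ | ⟨rfl, rfl⟩ | h
    · rw [huk, huk']; exact ⟨ec, hcq, hc', hc'S⟩
    · rw [hul, hul']; exact ⟨ed, hdq, hd', hd'S⟩
    · obtain ⟨e1, e2⟩ := huR i x hx h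
      obtain ⟨e3, e4⟩ := hρ i x hx h
      rw [e1, e2]
      exact ⟨e3, fun e => hq (e ▸ e4), Or.inl rfl, fun e => Set.disjoint_left.1 hSt.dis e4 e⟩
  -- one direction of the adjacency
  have hA : ∀ i x j y, x ≤ n i → y ≤ n j → ¬ (i = 0 ∧ k < x ∧ x < l) →
      ¬ (j = 0 ∧ k ≤ y ∧ y ≤ l) → (MG (ctr G p q) R).Adj (g i x) (g j y) →
      G.Adj (u' i x) (u' j y) := by
    intro i x j y hx hy hix hjy ha
    obtain ⟨e1, e2⟩ := huR j y hy hjy
    obtain ⟨e3, e4⟩ := hρ j y hy hjy
    rw [e2]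
    rcases hcase i x hx hix with ⟨rfl, rfl⟩ | ⟨rfl, rfl⟩ | h
    · rw [huk']; exact hc2 j y _ hy ha hjy e3
    · rw [hul']; exact hd2 j y _ hy ha hjy e3
    · obtain ⟨f1, f2⟩ := huR i x hx h
      obtain ⟨f3, f4⟩ := hρ i x hx h
      rw [f2]
      rw [e3, f3] at ha
      rcases (show (ctr G p q).Adj (ρ i x) (ρ j y) from ha).2.2.2 with e | ⟨e, _⟩ | ⟨e, _⟩
      · exact e
      · exact absurd (e ▸ f4) hp
      · exact absurd (e ▸ e4) hp
  have hK : ∀ i x j y, x ≤ n i → y ≤ n j → ¬ (i = 0 ∧ k < x ∧ x < l) →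
      ¬ (j = 0 ∧ k < y ∧ y < l) → ¬ (i = j ∧ x = y) →
      ((G.Adj (u' i x) (u' j y) ↔ (MG (ctr G p q) R).Adj (g i x) (g j y)) ∧
        u' i x ≠ u' j y) := by
    intro i x j y hx hy hix hjy hne
    obtain ⟨a1, a2, a3, a4⟩ := hg i x hx hix
    obtain ⟨b1, b2, b3, b4⟩ := hg j y hy hjy
    have huu : u i x ≠ u j y := by
      intro e
      refine hne (hPI.inj i j x y hx hy ?_)
      rw [a1, b1, e]
    refine ⟨⟨?_, ?_⟩, ?_⟩
    · intro h
      rw [a1, b1]
      exact ctr_sub huu a2 b2 a3 b3 h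
    · intro h
      by_cases hj : j = 0 ∧ k ≤ y ∧ y ≤ l
      · by_cases hi : i = 0 ∧ k ≤ x ∧ x ≤ l
        · exfalso
          obtain ⟨rfl, h1, h2⟩ := hj
          obtain ⟨rfl, h3, h4⟩ := hi
          have h5 : x = k ∨ x = l := by
            by_contra h6
            push Not at h6
            exact hix ⟨rfl, by omega, by omega⟩
          have h6 : y = k ∨ y = l := by
            by_contra h7
            push Not at h7
            exact hjy ⟨rfl, by omega, by omega⟩
          rcases (hPI.adj 0 0 x y hx hy).1 h with ⟨_, e | e⟩ | ⟨e, _⟩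
          · omega
          · omega
          · exact e rfl
        · exact (hA j y i x hy hx hjy hi h.symm).symm
      · exact hA i x j y hx hy hix hj h
    · intro e
      rcases a3 with a3 | ⟨a3, a3'⟩ <;> rcases b3 with b3 | ⟨b3, b3'⟩
      · exact huu (a3.symm.trans (e.trans b3))
      · exact a2 (a3.symm.trans (e.trans b3'))
      · exact b2 (b3.symm.trans (e.symm.trans a3'))
      · exact huu (a3.trans b3.symm)
  -- the new root
  have hroot : ∀ i x, x ≤ n i → ¬ (i = 0 ∧ k < x ∧ x < l) →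
      ((MG G S).Adj (Sum.inr S) (Sum.inl (u' i x)) ↔ i = 0 ∧ (x = k ∨ x = l)) := by
    intro i x hx hix
    constructor
    · intro h
      obtain ⟨_, _, _, s, hs, hadj⟩ := (show Sees G S S (u' i x) from h)
      rcases hcase i x hx hix with ⟨h1, h2⟩ | ⟨h1, h2⟩ | h3
      · exact ⟨h1, Or.inl h2⟩
      · exact ⟨h1, Or.inr h2⟩
      · obtain ⟨f1, f2⟩ := huR i x hx h3
        obtain ⟨f3, f4⟩ := hρ i x hx h3
        rw [f2] at hadj
        exact absurd hadj (hSt.ne _ f4 _ hs)
    · rintro ⟨rfl, rfl | rfl⟩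
      · rw [huk']
        exact ⟨hc'S, le_rfl, hSt.cn, (hSt.nb c' hc'R hc'S).2 hc'N⟩
      · rw [hul']
        exact ⟨hd'S, le_rfl, hSt.cn, (hSt.nb d' hd'R hd'S).2 hd'N⟩
  -- the new prism
  let n2 : Fin 3 → ℕ := fun i => if i = 0 then k + 2 + (n 0 - l) else n i
  let px : Fin 3 → ℕ → ℕ := fun i x => if i = 0 ∧ k + 1 < x then x - (k + 2) + l else x
  let g2 : Fin 3 → ℕ → V ⊕ Set V := fun i x =>
    if i = 0 ∧ x = k + 1 then Sum.inr S else Sum.inl (u' i (px i x))
  have hn20 : n2 0 = k + 2 + (n 0 - l) := by simp [n2]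
  have hn2i : ∀ i, i ≠ 0 → n2 i = n i := fun i hi => by simp [n2, hi]
  have hpx1 : ∀ x, k + 1 < x → px 0 x = x - (k + 2) + l := fun x hx => by simp [px, hx]
  have hpx2 : ∀ x, ¬ k + 1 < x → px 0 x = x := fun x hx => by simp [px, hx]
  have hpxi : ∀ i x, i ≠ 0 → px i x = x := fun i x hi => by simp [px, hi]
  have hg2r : g2 0 (k + 1) = Sum.inr S := by simp [g2]
  have hg2l : ∀ i x, ¬ (i = 0 ∧ x = k + 1) → g2 i x = Sum.inl (u' i (px i x)) := fun i x hi => by
    simp only [g2, if_neg hi]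
  have hpk : ∀ i x, x ≤ n2 i → ¬ (i = 0 ∧ x = k + 1) →
      px i x ≤ n i ∧ ¬ (i = 0 ∧ k < px i x ∧ px i x < l) := by
    intro i x hx hne
    by_cases hi : i = 0
    · subst hi
      rw [hn20] at hx
      by_cases h1 : k + 1 < x
      · rw [hpx1 x h1]
        exact ⟨by omega, fun e => by have := e.2; omega⟩
      · rw [hpx2 x h1]
        have : x ≠ k + 1 := fun e => hne ⟨rfl, e⟩
        exact ⟨by omega, fun e => by have := e.2; omega⟩
    · rw [hpxi i x hi]
      rw [hn2i i hi] at hx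
      exact ⟨hx, fun e => hi e.1⟩
  have hPI2 : PI (MG G S) n2 g2 := by
    refine ⟨?_, ?_, ?_⟩
    · intro i
      by_cases hi : i = 0
      · subst hi; rw [hn20]; omega
      · rw [hn2i i hi]; exact hPI.pos i
    · intro i j x y hx hy e
      by_cases h1 : i = 0 ∧ x = k + 1
      · obtain ⟨rfl, rfl⟩ := h1
        by_cases h2 : j = 0 ∧ y = k + 1
        · exact ⟨h2.1.symm, h2.2.symm⟩
        · rw [hg2r, hg2l j y h2] at e
          cases e
      · by_cases h2 : j = 0 ∧ y = k + 1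
        · obtain ⟨rfl, rfl⟩ := h2
          rw [hg2r, hg2l i x h1] at e
          cases e
        · rw [hg2l i x h1, hg2l j y h2] at e
          have e' := Sum.inl.inj e
          obtain ⟨p1, p2⟩ := hpk i x hx h1
          obtain ⟨p3, p4⟩ := hpk j y hy h2
          by_cases h3 : i = j ∧ px i x = px j y
          · obtain ⟨h3, h4⟩ := h3
            subst h3
            refine ⟨rfl, ?_⟩
            by_cases hi : i = 0
            · subst hi
              by_cases k1 : k + 1 < x <;> by_cases k2 : k + 1 < y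
              · rw [hpx1 x k1, hpx1 y k2] at h4; omega
              · rw [hpx1 x k1, hpx2 y k2] at h4; omega
              · rw [hpx2 x k1, hpx1 y k2] at h4; omega
              · rw [hpx2 x k1, hpx2 y k2] at h4; omega
            · rw [hpxi i x hi, hpxi i y hi] at h4; exact h4
          · exact absurd e' (hK i _ j _ p1 p3 p2 p4 h3).2
    · -- adjacency
      have hrootadj : ∀ j y, y ≤ n2 j → ((MG G S).Adj (g2 0 (k + 1)) (g2 j y) ↔
          ((0 : Fin 3) = j ∧ (k + 1 + 1 = y ∨ y + 1 = k + 1)) ∨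
          ((0 : Fin 3) ≠ j ∧ ((k + 1 = 0 ∧ y = 0) ∨ (k + 1 = n2 0 ∧ y = n2 j)))) := by
        intro j y hy
        by_cases h2 : j = 0 ∧ y = k + 1
        · obtain ⟨rfl, rfl⟩ := h2
          constructor
          · intro h; exact absurd h ((MG G S).loopless.irrefl _)
          · rintro (⟨_, e | e⟩ | ⟨e, _⟩)
            · omega
            · omega
            · exact absurd rfl e
        · obtain ⟨p3, p4⟩ := hpk j y hy h2
          rw [hg2r, hg2l j y h2, hroot j _ p3 p4]
          by_cases hj : j = 0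
          · subst hj
            rw [hn20] at hy
            have hy' : y ≠ k + 1 := fun e => h2 ⟨rfl, e⟩
            by_cases k2 : k + 1 < y
            · rw [hpx1 y k2]
              constructor
              · rintro ⟨_, e | e⟩
                · omega
                · exact Or.inl ⟨rfl, Or.inl (by omega)⟩
              · rintro (⟨_, e | e⟩ | ⟨e, _⟩)
                · exact ⟨rfl, Or.inr (by omega)⟩
                · omega
                · exact absurd rfl e
            · rw [hpx2 y k2]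
              constructor
              · rintro ⟨_, e | e⟩
                · exact Or.inl ⟨rfl, Or.inr (by omega)⟩
                · omega
              · rintro (⟨_, e | e⟩ | ⟨e, _⟩)
                · omega
                · exact ⟨rfl, Or.inl (by omega)⟩
                · exact absurd rfl e
          · constructor
            · rintro ⟨e, _⟩; exact absurd e hj
            · rintro (⟨e, _⟩ | ⟨_, ⟨e, _⟩ | ⟨e, _⟩⟩)
              · exact absurd e.symm hj
              · omega
              · rw [hn20] at e; omega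
      intro i j x y hx hy
      by_cases h1 : i = 0 ∧ x = k + 1
      · obtain ⟨rfl, rfl⟩ := h1
        exact hrootadj j y hy
      · by_cases h2 : j = 0 ∧ y = k + 1
        · obtain ⟨rfl, rfl⟩ := h2
          rw [SimpleGraph.adj_comm, hrootadj i x hx]
          constructor
          · rintro (⟨e, e' | e'⟩ | ⟨e, ⟨e', e''⟩ | ⟨e', e''⟩⟩)
            · exact Or.inl ⟨e.symm, Or.inr e'⟩
            · exact Or.inl ⟨e.symm, Or.inl e'⟩
            · exact Or.inr ⟨e.symm, Or.inl ⟨e'', e'⟩⟩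
            · exact Or.inr ⟨e.symm, Or.inr ⟨e'', e'⟩⟩
          · rintro (⟨e, e' | e'⟩ | ⟨e, ⟨e', e''⟩ | ⟨e', e''⟩⟩)
            · exact Or.inl ⟨e.symm, Or.inr e'⟩
            · exact Or.inl ⟨e.symm, Or.inl e'⟩
            · exact Or.inr ⟨e.symm, Or.inl ⟨e'', e'⟩⟩
            · exact Or.inr ⟨e.symm, Or.inr ⟨e'', e'⟩⟩
        · obtain ⟨p1, p2⟩ := hpk i x hx h1
          obtain ⟨p3, p4⟩ := hpk j y hy h2
          by_cases h3 : i = j ∧ x = y
          · obtain ⟨rfl, rfl⟩ := h3
            constructor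
            · intro h; exact absurd h ((MG G S).loopless.irrefl _)
            · rintro (⟨_, e | e⟩ | ⟨e, _⟩)
              · omega
              · omega
              · exact absurd rfl e
          · have h4 : ¬ (i = j ∧ px i x = px j y) := by
              rintro ⟨rfl, h4⟩
              apply h3
              refine ⟨rfl, ?_⟩
              by_cases hi : i = 0
              · subst hi
                by_cases k1 : k + 1 < x <;> by_cases k2 : k + 1 < y
                · rw [hpx1 x k1, hpx1 y k2] at h4; omega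
                · rw [hpx1 x k1, hpx2 y k2] at h4; omega
                · rw [hpx2 x k1, hpx1 y k2] at h4; omega
                · rw [hpx2 x k1, hpx2 y k2] at h4; omega
              · rw [hpxi i x hi, hpxi i y hi] at h4; exact h4
            rw [hg2l i x h1, hg2l j y h2, mg_ll, (hK i _ j _ p1 p3 p2 p4 h4).1,
              hPI.adj i j _ _ p1 p3]
            by_cases hi : i = 0
            · subst hi
              have hx' : x ≠ k + 1 := fun e => h1 ⟨rfl, e⟩
              rw [hn20] at hx ⊢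
              by_cases hj : j = 0
              · subst hj
                have hy' : y ≠ k + 1 := fun e => h2 ⟨rfl, e⟩
                rw [hn20] at hy ⊢
                simp only [true_and, ne_eq, not_true_eq_false, false_and, or_false]
                by_cases k1 : k + 1 < x <;> by_cases k2 : k + 1 < y
                · rw [hpx1 x k1, hpx1 y k2]; omega
                · rw [hpx1 x k1, hpx2 y k2]; omega
                · rw [hpx2 x k1, hpx1 y k2]; omega
                · rw [hpx2 x k1, hpx2 y k2]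
              · have hj' : ¬ (0 : Fin 3) = j := fun e => hj e.symm
                rw [hpxi j y hj, hn2i j hj]
                rw [hn2i j hj] at hy
                simp only [hj', false_and, false_or, ne_eq, not_false_eq_true, true_and]
                by_cases k1 : k + 1 < x
                · rw [hpx1 x k1]; omega
                · rw [hpx2 x k1]; omega
            · rw [hpxi i x hi, hn2i i hi]
              rw [hn2i i hi] at hx
              by_cases hj : j = 0
              · subst hj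
                have hy' : y ≠ k + 1 := fun e => h2 ⟨rfl, e⟩
                rw [hn20] at hy ⊢
                simp only [hi, false_and, false_or, ne_eq, not_false_eq_true, true_and]
                by_cases k2 : k + 1 < y
                · rw [hpx1 y k2]; omega
                · rw [hpx2 y k2]; omega
              · rw [hpxi j y hj, hn2i j hj]
  -- conclusion
  refine hPM n2 g2 hPI2 ⟨?_, ?_⟩ ?_
  · intro F hF r hr hrZ
    exfalso
    obtain ⟨i, x, hx, e⟩ := hrZ
    by_cases h1 : i = 0 ∧ x = k + 1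
    · obtain ⟨rfl, rfl⟩ := h1
      rw [hg2r] at e
      cases e
    · rw [hg2l i x h1] at e
      obtain ⟨p1, p2⟩ := hpk i x hx h1
      exact (hg i _ p1 p2).2.2.2 (Sum.inl.inj e ▸ hr)
  · intro _
    have hone : ∀ F, F ∈ rt (vI n2 g2) → F = S := by
      rintro F ⟨i, x, hx, e⟩
      by_cases h1 : i = 0 ∧ x = k + 1
      · obtain ⟨rfl, rfl⟩ := h1
        rw [hg2r] at e
        exact (Sum.inr.inj e).symm
      · rw [hg2l i x h1] at e
        cases e
    intro F hF F' hF'
    rw [hone F hF, hone F' hF']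
  · intro i
    by_cases hi : i = 0
    · subst hi; rw [hn20]; exact hpar
    · rw [hn2i i hi]; exact hodd i

end Pool.Agent.H82.ER3
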